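import Mathlib

/-!
# Balanced digraphs and their algebraic connectivity
-/

set_option autoImplicit false

namespace Pool.Agent.Q151.BD

open Finset

/-- Digraphs with the vertices `Fin n`, without loops and multiple arcs; `(i, j)` is an arc iff
`arc i j = true`. -/
structure Digr (n : ℕ) where
  arc : Fin n → Fin n → Bool
  loopless : ∀ i, arc i i = false

/-- The complement: `(i, j)`, `i ≠ j`, is an arc iff it is not an arc of `G`. -/
def Digr.compl {n : ℕ} (G : Digr n) : Digr n where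
  arc i j := decide (i ≠ j) && !(G.arc i j)
  loopless i := by simp

/-- The out-degree. -/
def Digr.outDeg {n : ℕ} (G : Digr n) (i : Fin n) : ℕ :=
  (univ.filter fun j => G.arc i j = true).card

/-- The in-degree. -/
def Digr.inDeg {n : ℕ} (G : Digr n) (i : Fin n) : ℕ :=
  (univ.filter fun j => G.arc j i = true).card

/-- Every vertex has its in-degree equal to its out-degree. -/
def Digr.Balanced {n : ℕ} (G : Digr n) : Prop := ∀ i, G.inDeg i = G.outDeg i

/-- The Laplacian matrix `L = D - A`, `D` the diagonal matrix of the out-degrees. -/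
noncomputable def Digr.lap {n : ℕ} (G : Digr n) : Matrix (Fin n) (Fin n) ℝ :=
  fun i j => (if i = j then (G.outDeg i : ℝ) else 0) - (if G.arc i j = true then 1 else 0)

/-- The algebraic connectivity: the least value of `xᵀ L x` for the unit vectors `x` orthogonal to
the all-ones vector. -/
noncomputable def Digr.alpha {n : ℕ} (G : Digr n) : ℝ :=
  sInf {r : ℝ | ∃ x : Fin n → ℝ, ∑ i, x i = 0 ∧ ∑ i, x i ^ 2 = 1 ∧
    r = ∑ i, ∑ j, x i * G.lap i j * x j}

theorem Digr.bdd {n : ℕ} (G : Digr n) : BddBelow {r : ℝ | ∃ x : Fin n → ℝ, ∑ i, x i = 0 ∧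
    ∑ i, x i ^ 2 = 1 ∧ r = ∑ i, ∑ j, x i * G.lap i j * x j} := by
  refine ⟨-∑ i, ∑ j, |G.lap i j|, ?_⟩
  rintro r ⟨x, -, hx, rfl⟩
  have h1 : ∀ i, |x i| ≤ 1 := by
    intro i
    have : x i ^ 2 ≤ 1 := by
      rw [← hx]
      exact Finset.single_le_sum (f := fun i => x i ^ 2) (fun i _ => sq_nonneg _) (mem_univ i)
    exact abs_le_one_iff_mul_self_le_one.2 (by nlinarith)
  rw [← Finset.sum_neg_distrib]
  refine Finset.sum_le_sum fun i _ => ?_
  rw [← Finset.sum_neg_distrib]
  refine Finset.sum_le_sum fun j _ => ?_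
  have h2 : |x i * G.lap i j * x j| ≤ |G.lap i j| := by
    rw [abs_mul, abs_mul]
    have h3 := h1 i
    have h4 := h1 j
    have h5 := abs_nonneg (G.lap i j)
    have h6 := abs_nonneg (x i)
    have h7 := abs_nonneg (x j)
    calc |x i| * |G.lap i j| * |x j| ≤ 1 * |G.lap i j| * 1 := by gcongr
      _ = |G.lap i j| := by ring
  exact (abs_le.1 h2).1

theorem Digr.mem {n : ℕ} (G : Digr n) (v : Fin n → ℝ) (S : ℝ) (h0 : ∑ i, v i = 0)
    (hS : ∑ i, v i ^ 2 = S) (hpos : 0 < S) :
    (∑ i, ∑ j, v i * G.lap i j * v j) / S ∈ {r : ℝ | ∃ x : Fin n → ℝ, ∑ i, x i = 0 ∧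
    ∑ i, x i ^ 2 = 1 ∧ r = ∑ i, ∑ j, x i * G.lap i j * x j} := by
  have hs : (Real.sqrt S)⁻¹ * (Real.sqrt S)⁻¹ = 1 / S := by
    rw [← mul_inv, Real.mul_self_sqrt hpos.le, one_div]
  refine ⟨fun i => v i * (Real.sqrt S)⁻¹, ?_, ?_, ?_⟩
  · rw [← Finset.sum_mul, h0, zero_mul]
  · have : ∀ i, (v i * (Real.sqrt S)⁻¹) ^ 2 = v i ^ 2 * (1 / S) := by
      intro i
      rw [← hs]
      ring
    simp_rw [this]
    rw [← Finset.sum_mul, hS]
    field_simp
  · have : ∀ i j, v i * (Real.sqrt S)⁻¹ * G.lap i j * (v j * (Real.sqrt S)⁻¹) =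
        v i * G.lap i j * v j * (1 / S) := by
      intro i j
      rw [← hs]
      ring
    simp_rw [this, ← Finset.sum_mul]
    ring

theorem Digr.alpha_le {n : ℕ} (G : Digr n) (v : Fin n → ℝ) (S : ℝ) (h0 : ∑ i, v i = 0)
    (hS : ∑ i, v i ^ 2 = S) (hpos : 0 < S) :
    G.alpha ≤ (∑ i, ∑ j, v i * G.lap i j * v j) / S :=
  csInf_le G.bdd (G.mem v S h0 hS hpos)

/-- The Laplacian with integer entries. -/
def Digr.lapZ {n : ℕ} (G : Digr n) (i j : Fin n) : ℤ :=
  (if i = j then (G.outDeg i : ℤ) else 0) - (if G.arc i j = true then 1 else 0)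

theorem Digr.lap_eq {n : ℕ} (G : Digr n) (i j : Fin n) : G.lap i j = (G.lapZ i j : ℝ) := by
  unfold Digr.lap Digr.lapZ
  push_cast
  rfl

theorem Digr.alpha_leZ {n : ℕ} (G : Digr n) (v : Fin n → ℤ) (S T : ℤ) (h0 : ∑ i, v i = 0)
    (hS : ∑ i, v i ^ 2 = S) (hT : ∑ i, ∑ j, v i * G.lapZ i j * v j = T) (hpos : 0 < S) :
    G.alpha ≤ (T : ℝ) / S := by
  have h := G.alpha_le (fun i => (v i : ℝ)) S (by exact_mod_cast h0) (by exact_mod_cast hS)
    (by exact_mod_cast hpos)
  have h2 : (∑ i, ∑ j, (v i : ℝ) * G.lap i j * v j) = (T : ℝ) := by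
    rw [← hT]
    push_cast
    simp_rw [G.lap_eq]
  rw [h2] at h
  exact h

/-- The digraph of order ten. -/
def mat : Fin 10 → Fin 10 → Bool := ![
  ![false, false, true, true, true, false, true, false, true, false],
  ![false, false, false, false, false, false, true, true, false, false],
  ![true, false, false, true, false, false, true, false, true, true],
  ![true, false, true, false, false, true, true, false, true, false],
  ![false, false, true, false, false, false, true, false, true, true],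
  ![false, false, false, false, false, false, true, false, true, true],
  ![true, true, true, true, true, true, false, false, true, true],
  ![false, false, false, false, false, false, true, false, false, false],
  ![true, true, true, true, true, true, false, false, false, true],
  ![true, false, false, true, true, false, true, false, true, false]]

/-- The digraph of order ten. -/
def Γ : Digr 10 where
  arc := mat
  loopless := by decide

theorem balanced : Γ.Balanced := by
  unfold Digr.Balanced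
  decide

theorem alpha_le : Γ.alpha ≤ 328 / 378 := by
  have h := Γ.alpha_leZ ![-3, 5, -3, -3, -3, -3, -1, 17, -3, -3] 378 328 (by decide) (by decide)
    (by decide) (by norm_num)
  refine h.trans (le_of_eq ?_)
  norm_num

theorem alpha_compl_le : Γ.compl.alpha ≤ 328 / 378 := by
  have h := Γ.compl.alpha_leZ ![-3, -3, -3, -3, -3, -3, 17, -1, 5, -3] 378 328 (by decide)
    (by decide) (by decide) (by norm_num)
  refine h.trans (le_of_eq ?_)
  norm_num

/-- Entries of the adjacency matrix. -/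
noncomputable def Digr.a {n : ℕ} (G : Digr n) (i j : Fin n) : ℝ := if G.arc i j = true then 1 else 0

theorem Digr.a_nonneg {n : ℕ} (G : Digr n) (i j : Fin n) : 0 ≤ G.a i j := by
  unfold Digr.a
  split_ifs <;> norm_num

theorem Digr.quad {n : ℕ} (G : Digr n) (hb : G.Balanced) (x : Fin n → ℝ) :
    ∑ i, ∑ j, x i * G.lap i j * x j = (1 / 2) * ∑ i, ∑ j, G.a i j * (x i - x j) ^ 2 := by
  have hout : ∀ i, (G.outDeg i : ℝ) = ∑ j, G.a i j := by
    intro i
    unfold Digr.outDeg Digr.a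
    rw [Finset.card_filter]
    push_cast
    rfl
  have hin : ∀ i, (G.inDeg i : ℝ) = ∑ j, G.a j i := by
    intro i
    unfold Digr.inDeg Digr.a
    rw [Finset.card_filter]
    push_cast
    rfl
  have h1 : ∀ i, ∑ j, x i * G.lap i j * x j = G.outDeg i * x i ^ 2 - ∑ j, G.a i j * x i * x j := by
    intro i
    have : ∀ j, x i * G.lap i j * x j =
        (if i = j then (G.outDeg i : ℝ) * x i * x j else 0) - G.a i j * x i * x j := by
      intro j
      unfold Digr.lap Digr.a
      split_ifs <;> ring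
    simp_rw [this]
    rw [Finset.sum_sub_distrib, Finset.sum_ite_eq]
    simp
    ring
  have h2 : ∑ i, ∑ j, G.a i j * (x i - x j) ^ 2 =
      ∑ i, ∑ j, G.a i j * x i ^ 2 + ∑ i, ∑ j, G.a i j * x j ^ 2 -
        2 * ∑ i, ∑ j, G.a i j * x i * x j := by
    simp_rw [Finset.mul_sum]
    simp_rw [← Finset.sum_add_distrib, ← Finset.sum_sub_distrib]
    refine Finset.sum_congr rfl fun i _ => Finset.sum_congr rfl fun j _ => ?_
    ring
  have h3 : ∑ i, ∑ j, G.a i j * x i ^ 2 = ∑ i, G.outDeg i * x i ^ 2 := by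
    refine Finset.sum_congr rfl fun i _ => ?_
    rw [hout, Finset.sum_mul]
  have h4 : ∑ i, ∑ j, G.a i j * x j ^ 2 = ∑ i, G.outDeg i * x i ^ 2 := by
    rw [Finset.sum_comm]
    refine Finset.sum_congr rfl fun i _ => ?_
    rw [← Finset.sum_mul, ← hin, hb i]
  simp_rw [h1]
  rw [Finset.sum_sub_distrib, h2, h3, h4]
  ring

theorem Digr.half_le {n : ℕ} (G : Digr n) (hb : G.Balanced) (c : Fin n)
    (hc : ∀ i, i ≠ c → G.arc i c = true ∨ G.arc c i = true)
    (hne : {r : ℝ | ∃ x : Fin n → ℝ, ∑ i, x i = 0 ∧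
      ∑ i, x i ^ 2 = 1 ∧ r = ∑ i, ∑ j, x i * G.lap i j * x j}.Nonempty) : 1 / 2 ≤ G.alpha := by
  refine le_csInf hne ?_
  rintro r ⟨x, h0, h1, rfl⟩
  rw [G.quad hb x]
  set f : Fin n → Fin n → ℝ := fun i j => G.a i j * (x i - x j) ^ 2 with hfdef
  have hf : ∀ i j, 0 ≤ f i j := fun i j => mul_nonneg (G.a_nonneg i j) (sq_nonneg _)
  have e1 : ∑ i, ∑ j, f i j = ∑ j, f c j + ∑ i ∈ univ.erase c, ∑ j, f i j :=
    (Finset.add_sum_erase _ (fun i => ∑ j, f i j) (mem_univ c)).symm
  have e2 : ∑ j, f c j = f c c + ∑ j ∈ univ.erase c, f c j :=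
    (Finset.add_sum_erase _ (fun j => f c j) (mem_univ c)).symm
  have e3 : ∑ i, (x i - x c) ^ 2 = (x c - x c) ^ 2 + ∑ i ∈ univ.erase c, (x i - x c) ^ 2 :=
    (Finset.add_sum_erase _ (fun i => (x i - x c) ^ 2) (mem_univ c)).symm
  have e4 : ∑ i ∈ univ.erase c, (x i - x c) ^ 2 ≤
      ∑ i ∈ univ.erase c, f c i + ∑ i ∈ univ.erase c, ∑ j, f i j := by
    rw [← Finset.sum_add_distrib]
    refine Finset.sum_le_sum fun i hi => ?_
    have hi' := Finset.ne_of_mem_erase hi
    have h2 : f i c ≤ ∑ j, f i j := Finset.single_le_sum (fun j _ => hf i j) (mem_univ c)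
    rcases hc i hi' with h | h
    · have h3 : f i c = (x i - x c) ^ 2 := by simp [hfdef, Digr.a, h]
      have h4 := hf c i
      linarith
    · have h3 : f c i = (x c - x i) ^ 2 := by simp [hfdef, Digr.a, h]
      have h4 := hf i c
      nlinarith
  have e5 : ∑ i, (x i - x c) ^ 2 = 1 + n * x c ^ 2 := by
    have : ∀ i, (x i - x c) ^ 2 = x i ^ 2 - 2 * x c * x i + x c ^ 2 := fun i => by ring
    simp_rw [this]
    rw [Finset.sum_add_distrib, Finset.sum_sub_distrib, ← Finset.mul_sum, h0, h1]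
    simp
  have e6 : f c c = 0 := by simp [hfdef]
  have e7 : (0 : ℝ) ≤ n * x c ^ 2 := by positivity
  have e8 : (x c - x c) ^ 2 = 0 := by simp
  linarith

theorem balanced_compl : Γ.compl.Balanced := by
  unfold Digr.Balanced
  decide

theorem half_le : 1 / 2 ≤ Γ.alpha := by
  refine Γ.half_le balanced 6 (by decide) ⟨_, Γ.mem (fun i => ((![-3, 5, -3, -3, -3, -3, -1, 17, -3, -3] :
    Fin 10 → ℤ) i : ℝ)) 378 ?_ ?_ (by norm_num)⟩
  · exact_mod_cast (by decide : ∑ i, (![-3, 5, -3, -3, -3, -3, -1, 17, -3, -3] : Fin 10 → ℤ) i = 0)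
  · exact_mod_cast (by decide : ∑ i, (![-3, 5, -3, -3, -3, -3, -1, 17, -3, -3] : Fin 10 → ℤ) i ^ 2 = 378)

theorem half_le_compl : 1 / 2 ≤ Γ.compl.alpha := by
  refine Γ.compl.half_le balanced_compl 7 (by decide) ⟨_, Γ.compl.mem
    (fun i => ((![-3, 5, -3, -3, -3, -3, -1, 17, -3, -3] : Fin 10 → ℤ) i : ℝ)) 378 ?_ ?_ (by norm_num)⟩
  · exact_mod_cast (by decide : ∑ i, (![-3, 5, -3, -3, -3, -3, -1, 17, -3, -3] : Fin 10 → ℤ) i = 0)
  · exact_mod_cast (by decide : ∑ i, (![-3, 5, -3, -3, -3, -3, -1, 17, -3, -3] : Fin 10 → ℤ) i ^ 2 = 378)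

theorem num (x y : ℝ) (hx : x ≤ 328 / 378) (hy : y ≤ 328 / 378) :
    x * y * (2 - x * y) < 10 * (1 - x) * (1 - y) * (10 - 2 - x - y) := by
  have h1 : x * y * (2 - x * y) ≤ 1 := by nlinarith [sq_nonneg (1 - x * y)]
  have ha : (50 / 378 : ℝ) ≤ 1 - x := by linarith
  have hb : (50 / 378 : ℝ) ≤ 1 - y := by linarith
  have hc : (626 / 100 : ℝ) ≤ 10 - 2 - x - y := by linarith
  have h2 : (50 / 378 : ℝ) * (50 / 378) ≤ (1 - x) * (1 - y) :=
    mul_le_mul ha hb (by norm_num) (by linarith)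
  have h3 : (50 / 378 : ℝ) * (50 / 378) * (626 / 100) ≤ (1 - x) * (1 - y) * (10 - 2 - x - y) :=
    mul_le_mul h2 hc (by norm_num) (by nlinarith)
  nlinarith

end Pool.Agent.Q151.BD
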